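import Pool.Agent.H11.Pat1

open H11.Pat

theorem Pool.Agent.Results.MP_6ec7bd_co.Counter.result :
    ∃ (v x y : List Bool) (d : ℕ), 2 ≤ v.length ∧ true ∈ v ∧ v ≠ [true, true] ∧
      IsMinPair v x y ∧ 2 ^ (2 * v.length + 1) ≤ d ∧ C v x * d + B v x y < A v d := by
  refine ⟨v0, x0, x0, 2115, by decide, by decide, by decide, minpair, by decide, ?_⟩
  rw [A_eq]
  have h1 : val x0 = 1 := by decide
  have h2 : trail v0 = 4 := by decide
  have h3 : v0.length = 5 := by decide
  simp only [B, C, h1, h2, h3]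
  norm_num
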